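import Pool.Agent.W325.S3.Stm

/-!
S3-STAIR: words along the staircase.
-/

namespace Pool.Agent.W135.S3.Stair

open Finset Pool.Agent.H46R2.K3 Pool.Agent.W325.S3

lemma pos_zero (u : List St) : pos u 0 = 0 := by simp [pos]

/-- One leg in the direction `0`. -/
lemma leg0 (hL : S_LEG) (hM : S_LEGM) {I : ℕ} {E : ℕ → ℕ} {r : ℕ → ℝ} {h len : ℕ → ℕ}
    {B : ℕ → Finset (List St)} (hLad : Lad I E r h len B) {Lm : ℕ} (hLm : ∀ l ≤ I, len l ≤ Lm)
    (A : Finset V) (a : V) (lam : ℕ) : ∃ (L : ℕ) (U : Finset (List St)), L ≤ lam * Lm ∧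
      Ex A a 0 (lam : ℤ) U L (ax 0 (lam : ℤ)) (Psi A I E r a 0 lam) := by
  obtain ⟨L, U, hLle, hU, hc⟩ := hL I E r h len B hLad Lm hLm A a 0 lam
  refine ⟨L, U, hLle, ⟨fun u hu => (hU u hu).1, fun u hu => (hU u hu).2.1.2.1,
    fun u hu => hM 0 lam u (hU u hu).2.1, ?_, fun u hu => (hU u hu).2.2, hc⟩⟩
  intro u hu i hi
  obtain ⟨hlen, hleg, _⟩ := hU u hu
  rcases Nat.eq_zero_or_pos i with rfl | hi0
  · rw [pos_zero]
    simp
  · have := hleg.2.2.1 i hi0 (by omega)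
    exact ⟨this.1.le, this.2⟩

/-- One leg in another direction. -/
lemma legd (hL : S_LEG) (hM : S_LEGM) {I : ℕ} {E : ℕ → ℕ} {r : ℕ → ℝ} {h len : ℕ → ℕ}
    {B : ℕ → Finset (List St)} (hLad : Lad I E r h len B) {Lm : ℕ} (hLm : ∀ l ≤ I, len l ≤ Lm)
    (A : Finset V) (a : V) (d : Fin 3) (hd : (0 : Fin 3) ≠ d) (lam R : ℕ) (hR : lam < 2 * R) :
    ∃ (L : ℕ) (U : Finset (List St)), L ≤ lam * Lm ∧
      Ex A a (-(R : ℤ)) (R : ℤ) U L (ax d (lam : ℤ)) (Psi A I E r a d lam) := by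
  obtain ⟨L, U, hLle, hU, hc⟩ := hL I E r h len B hLad Lm hLm A a d lam
  refine ⟨L, U, hLle, ⟨fun u hu => (hU u hu).1, fun u hu => (hU u hu).2.1.2.1,
    fun u hu => hM d lam u (hU u hu).2.1, ?_, fun u hu => (hU u hu).2.2, hc⟩⟩
  intro u hu i hi
  obtain ⟨hlen, hleg, _⟩ := hU u hu
  have h1 := hleg.2.2.2 i (by omega) 0 hd
  have h2 : |pos u i 0| ≤ (R : ℤ) := by
    have h3 : (lam : ℤ) < 2 * (R : ℤ) := by exact_mod_cast hR
    have h4 : 0 ≤ |pos u i 0| := abs_nonneg _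
    omega
  exact abs_le.1 h2

/-- One stage. -/
lemma stage (hL : S_LEG) (hM : S_LEGM) (hA : S_APP) {I : ℕ} {E : ℕ → ℕ} {r : ℕ → ℝ}
    {h len : ℕ → ℕ} {B : ℕ → Finset (List St)} (hLad : Lad I E r h len B) {Lm : ℕ}
    (hLm : ∀ l ≤ I, len l ≤ Lm) (A : Finset V) (a : V) (R : ℕ) (u : Fin 3 → ℕ)
    (hu : ∀ d, R ≤ u d ∧ u d < 2 * R) :
    ∃ (L : ℕ) (U : Finset (List St)), L ≤ 6 * R * Lm ∧
      Ex A a 0 ((u 0 : ℤ) + R) U L (fun t => (u t : ℤ)) (stc A I E r a u) := by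
  obtain ⟨L1, U1, hL1, h1⟩ := leg0 hL hM hLad hLm A a (u 0)
  obtain ⟨L2, U2, hL2, h2⟩ := legd hL hM hLad hLm A (a + ax 0 (u 0 : ℤ)) 1 (by decide) (u 1) R
    (hu 1).2
  obtain ⟨L3, U3, hL3, h3⟩ := legd hL hM hLad hLm A (a + ax 0 (u 0 : ℤ) + ax 1 (u 1 : ℤ)) 2
    (by decide) (u 2) R (hu 2).2
  have hz1 : (ax 0 (u 0 : ℤ) : V) 0 = (u 0 : ℤ) := by simp [ax]
  have hR0 : (R : ℤ) ≤ (u 0 : ℤ) := by exact_mod_cast (hu 0).1
  have hRn : (0 : ℤ) ≤ (R : ℤ) := by positivity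
  obtain ⟨U12, h12⟩ := hA A a 0 ((u 0 : ℤ) + R) 0 (u 0 : ℤ) (-(R : ℤ)) (R : ℤ) U1 U2 L1 L2 _ _ _ _
    h1 h2 le_rfl (by rw [hz1]; linarith) (by linarith) (by rw [hz1])
  have hz2 : (ax 0 (u 0 : ℤ) + ax 1 (u 1 : ℤ) : V) 0 = (u 0 : ℤ) := by simp [ax]
  rw [add_assoc a] at h3
  obtain ⟨U123, h123⟩ := hA A a 0 ((u 0 : ℤ) + R) 0 ((u 0 : ℤ) + R) (-(R : ℤ)) (R : ℤ) U12 U3
    (L1 + L2) L3 _ _ _ _ h12 h3 le_rfl (by rw [hz2]; linarith) le_rfl (by rw [hz2])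
  refine ⟨L1 + L2 + L3, U123, ?_, ?_⟩
  · have e0 := (hu 0).2
    have e1 := (hu 1).2
    have e2 := (hu 2).2
    calc L1 + L2 + L3 ≤ u 0 * Lm + u 1 * Lm + u 2 * Lm := by omega
      _ = (u 0 + u 1 + u 2) * Lm := by ring
      _ ≤ 6 * R * Lm := Nat.mul_le_mul_right _ (by omega)
  · have hz : (ax 0 (u 0 : ℤ) + ax 1 (u 1 : ℤ) + ax 2 (u 2 : ℤ) : V) = fun t => (u t : ℤ) := by
      funext t
      fin_cases t <;> simp [ax]
    have hY : Psi A I E r a 0 (u 0) + Psi A I E r (a + ax 0 (u 0 : ℤ)) 1 (u 1) +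
        Psi A I E r (a + (ax 0 (u 0 : ℤ) + ax 1 (u 1 : ℤ))) 2 (u 2) = stc A I E r a u := by
      unfold stc
      rw [add_assoc a]
    rw [hz, hY] at h123
    exact h123

lemma cor_succ (u : ℕ → Fin 3 → ℕ) (i : ℕ) : cor u (i + 1) = cor u i + fun t => (u i t : ℤ) := by
  funext t
  simp [cor, Finset.sum_range_succ]

lemma cor_nonneg (u : ℕ → Fin 3 → ℕ) (i : ℕ) (t : Fin 3) : 0 ≤ cor u i t := by
  unfold cor
  positivity

lemma ex_nil (A : Finset V) (hi : ℤ) (hh : 0 ≤ hi) : Ex A 0 0 hi {[]} 0 0 0 := by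
  refine ⟨?_, ?_, ?_, ?_, ?_, ?_⟩
  · intro u hu
    rw [Finset.mem_singleton.1 hu]
    rfl
  · intro u hu
    rw [Finset.mem_singleton.1 hu]
    simp [disp]
  · intro u hu
    rw [Finset.mem_singleton.1 hu]
    refine ⟨?_, ?_⟩
    · intro i j hij hj
      simp at hj
      omega
    · intro i hi
      simp at hi
      subst hi
      simp [pos, disp, Sg]
  · intro u hu i hi
    rw [Finset.mem_singleton.1 hu]
    simp [pos, hh]
  · intro u hu
    rw [Finset.mem_singleton.1 hu]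
    simp [hits]
  · simp

/-- S3-STAIR. -/
theorem stair (hL : S_LEG) (hM : S_LEGM) (hA : S_APP) : S_STAIR := by
  intro I E r h len B hLad Lm hLm A R F u hR1 hRm hRF hu
  have hRI : ∀ i ≤ I, R i ≤ R I := by
    intro i hi
    obtain ⟨k, rfl⟩ := Nat.exists_eq_add_of_le hi
    clear hi
    have : ∀ j ≤ k, R i ≤ R (i + j) := by
      intro j
      induction j with
      | zero => intro _; exact le_rfl
      | succ j ih => intro hj; exact (ih (by omega)).trans (hRm (i + j) (by omega))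
    exact this k le_rfl
  have hind : ∀ i ≤ I + 1, ∃ (L : ℕ) (U : Finset (List St)), L ≤ 6 * i * R I * Lm ∧
      Ex A 0 0 (cor u i 0 + R I) U L (cor u i)
        (∑ k ∈ range i, stc A I E r (cor u k) (u k)) := by
    intro i
    induction i with
    | zero =>
      intro _
      refine ⟨0, {[]}, Nat.zero_le _, ?_⟩
      have e : cor u 0 = 0 := by funext t; simp [cor]
      rw [e, Finset.sum_range_zero]
      exact ex_nil A _ (by simp)
    | succ i ih =>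
      intro hi
      obtain ⟨L1, U1, hL1, h1⟩ := ih (by omega)
      obtain ⟨L2, U2, hL2, h2⟩ := stage hL hM hA hLad hLm A (0 + cor u i) (R i) (u i)
        (hu i (by omega))
      have hRi : (R i : ℤ) ≤ (R I : ℤ) := by exact_mod_cast hRI i (by omega)
      have hc : cor u (i + 1) 0 = cor u i 0 + (u i 0 : ℤ) := by rw [cor_succ]; rfl
      have hc0 := cor_nonneg u i 0
      have hu0 : (0 : ℤ) ≤ (u i 0 : ℤ) := by positivity
      obtain ⟨U, hU⟩ := hA A 0 0 (cor u (i + 1) 0 + R I) 0 (cor u i 0 + R I) 0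
        ((u i 0 : ℤ) + R i) U1 U2 L1 L2 _ _ _ _ h1 h2 le_rfl (by linarith) (by linarith)
        (by linarith)
      refine ⟨L1 + L2, U, ?_, ?_⟩
      · calc L1 + L2 ≤ 6 * i * R I * Lm + 6 * R i * Lm := Nat.add_le_add hL1 hL2
          _ ≤ 6 * i * R I * Lm + 6 * R I * Lm := by
              have := hRI i (by omega)
              gcongr
          _ = 6 * (i + 1) * R I * Lm := by ring
      · rw [cor_succ, Finset.sum_range_succ]
        rw [zero_add] at hU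
        rw [← cor_succ]
        rw [← cor_succ] at hU
        exact hU
  obtain ⟨L1, U1, hL1, h1⟩ := hind (I + 1) le_rfl
  obtain ⟨L2, U2, hL2, h2⟩ := leg0 hL hM hLad hLm A (0 + cor u (I + 1)) F
  have hRF' : (R I : ℤ) ≤ (F : ℤ) := by exact_mod_cast hRF
  have hc0 := cor_nonneg u (I + 1) 0
  have hz : (cor u (I + 1) + ax 0 (F : ℤ) : V) 0 = cor u (I + 1) 0 + F := by simp [ax]
  obtain ⟨U, hU⟩ := hA A 0 0 ((cor u (I + 1) + ax 0 (F : ℤ) : V) 0) 0 (cor u (I + 1) 0 + R I) 0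
    (F : ℤ) U1 U2 L1 L2 _ _ _ _ h1 h2 le_rfl (by linarith) (by rw [hz]; linarith) (by rw [hz])
  refine ⟨L1 + L2, U, cor u (I + 1) + ax 0 (F : ℤ), ?_, ?_, ?_⟩
  · calc L1 + L2 ≤ 6 * (I + 1) * R I * Lm + F * Lm := Nat.add_le_add hL1 hL2
      _ = (6 * (I + 1) * R I + F) * Lm := by ring
  · rw [hz]
    linarith
  · rw [zero_add] at hU
    exact hU

end Pool.Agent.W135.S3.Stair
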